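import Mathlib

/-!
# MP_9e9a14_co: uniquely `S`-weight colourable graphs for `|S| = 3`

For every set `S` of exactly three real numbers (in particular `S = {1,2,3}`) and every `m ≥ 1`,
the disjoint union of `m` triangles has an edge and is uniquely `S`-weight colourable.
For `m = 1` the graph is the triangle `K_3` (and is connected).
-/

namespace Pool.Agent.Results.MP_9e9a14_co.TriangleUnique

open Classical

/-- An edge `S`-weighting of `G` (only the values on the edges of `G` matter). -/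
def IsWeighting {V : Type} (G : SimpleGraph V) (S : Set ℝ) (w : Sym2 V → ℝ) : Prop :=
  ∀ e ∈ G.edgeSet, w e ∈ S

/-- The vertex sum `σ_w(v)`: the sum of the weights of the edges at `v`. -/
noncomputable def vsum {V : Type} [Fintype V] (G : SimpleGraph V) (w : Sym2 V → ℝ) (v : V) : ℝ :=
  ∑ e ∈ Finset.univ.filter (fun e : Sym2 V => e ∈ G.edgeSet ∧ v ∈ e), w e

/-- `w` properly colours `V(G)` by sums. -/
def Proper {V : Type} [Fintype V] (G : SimpleGraph V) (w : Sym2 V → ℝ) : Prop :=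
  ∀ u v : V, G.Adj u v → vsum G w u ≠ vsum G w v

/-- Two edge weightings are isomorphic: an automorphism of `G` carries one to the other. -/
def IsoW {V : Type} (G : SimpleGraph V) (w w' : Sym2 V → ℝ) : Prop :=
  ∃ φ : G ≃g G, ∀ e ∈ G.edgeSet, w' (e.map φ) = w e

/-- `G` is uniquely `S`-weight colourable. -/
def UniquelyColourable {V : Type} [Fintype V] (G : SimpleGraph V) (S : Set ℝ) : Prop :=
  (∃ w, IsWeighting G S w ∧ Proper G w) ∧
    ∀ w w', IsWeighting G S w → Proper G w → IsWeighting G S w' → Proper G w' → IsoW G w w'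

/-- The disjoint union of `m` triangles, on the vertex set `Fin m × Fin 3`. -/
def triangles (m : ℕ) : SimpleGraph (Fin m × Fin 3) where
  Adj x y := x.1 = y.1 ∧ x.2 ≠ y.2
  symm := ⟨fun _ _ h => ⟨h.1.symm, h.2.symm⟩⟩
  loopless := ⟨fun _ h => h.2 rfl⟩

/-- The weight of the edge opposite to the vertex `(i,a)`. -/
def opp {m : ℕ} (w : Sym2 (Fin m × Fin 3) → ℝ) (i : Fin m) (a : Fin 3) : ℝ :=
  w s((i, a + 1), (i, a + 2))

theorem vsum_eq {V : Type} [Fintype V] (G : SimpleGraph V) (w : Sym2 V → ℝ) (v : V)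
    (T : Finset (Sym2 V)) (hT : ∀ e, e ∈ T ↔ (e ∈ G.edgeSet ∧ v ∈ e)) :
    vsum G w v = ∑ e ∈ T, w e := by
  unfold vsum
  apply Finset.sum_congr _ (fun _ _ => rfl)
  ext e
  rw [Finset.mem_filter, hT]
  simp

theorem vsum_triangles {m : ℕ} (w : Sym2 (Fin m × Fin 3) → ℝ) (i : Fin m) (a : Fin 3) :
    vsum (triangles m) w (i, a) = opp w i (a + 1) + opp w i (a + 2) := by
  rw [vsum_eq _ w (i, a) {s((i, a + 1 + 1), (i, a + 1 + 2)), s((i, a + 2 + 1), (i, a + 2 + 2))}]
  · rw [Finset.sum_pair]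
    · rfl
    · intro h
      rw [Sym2.eq_iff] at h
      simp only [Prod.mk.injEq, true_and] at h
      revert h
      revert a
      decide
  · intro e
    induction e using Sym2.ind with
    | _ x y =>
      obtain ⟨x1, x2⟩ := x
      obtain ⟨y1, y2⟩ := y
      have h3 : ∀ a x y : Fin 3, ((x = a + 1 + 1 ∧ y = a + 1 + 2 ∨ x = a + 1 + 2 ∧ y = a + 1 + 1) ∨
          (x = a + 2 + 1 ∧ y = a + 2 + 2 ∨ x = a + 2 + 2 ∧ y = a + 2 + 1)) ↔
          (x ≠ y ∧ (a = x ∨ a = y)) := by decide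
      have h3 := h3 a x2 y2
      simp only [Finset.mem_insert, Finset.mem_singleton, SimpleGraph.mem_edgeSet,
        Sym2.mem_iff, Sym2.eq_iff, Prod.mk.injEq]
      change _ ↔ ((x1 = y1 ∧ x2 ≠ y2) ∧ _)
      constructor
      · rintro ((⟨⟨hi, h⟩, hj, h'⟩ | ⟨⟨hi, h⟩, hj, h'⟩) |
          (⟨⟨hi, h⟩, hj, h'⟩ | ⟨⟨hi, h⟩, hj, h'⟩)) <;> subst hi <;> subst hj
        · obtain ⟨h5, h6⟩ := h3.1 (Or.inl (Or.inl ⟨h, h'⟩))
          exact ⟨⟨rfl, h5⟩, h6.imp (fun h => ⟨rfl, h⟩) (fun h => ⟨rfl, h⟩)⟩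
        · obtain ⟨h5, h6⟩ := h3.1 (Or.inl (Or.inr ⟨h, h'⟩))
          exact ⟨⟨rfl, h5⟩, h6.imp (fun h => ⟨rfl, h⟩) (fun h => ⟨rfl, h⟩)⟩
        · obtain ⟨h5, h6⟩ := h3.1 (Or.inr (Or.inl ⟨h, h'⟩))
          exact ⟨⟨rfl, h5⟩, h6.imp (fun h => ⟨rfl, h⟩) (fun h => ⟨rfl, h⟩)⟩
        · obtain ⟨h5, h6⟩ := h3.1 (Or.inr (Or.inr ⟨h, h'⟩))
          exact ⟨⟨rfl, h5⟩, h6.imp (fun h => ⟨rfl, h⟩) (fun h => ⟨rfl, h⟩)⟩
      · rintro ⟨⟨rfl, h2⟩, h4⟩
        have hi : i = x1 := by rcases h4 with h | h <;> exact h.1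
        subst hi
        rcases h3.2 ⟨h2, h4.imp (fun h => h.2) (fun h => h.2)⟩ with
          (⟨h, h'⟩ | ⟨h, h'⟩) | (⟨h, h'⟩ | ⟨h, h'⟩)
        · exact Or.inl (Or.inl ⟨⟨rfl, h⟩, rfl, h'⟩)
        · exact Or.inl (Or.inr ⟨⟨rfl, h⟩, rfl, h'⟩)
        · exact Or.inr (Or.inl ⟨⟨rfl, h⟩, rfl, h'⟩)
        · exact Or.inr (Or.inr ⟨⟨rfl, h⟩, rfl, h'⟩)

theorem proper_iff {m : ℕ} (w : Sym2 (Fin m × Fin 3) → ℝ) :
    Proper (triangles m) w ↔ ∀ i, Function.Injective (opp w i) := by
  have key : ∀ (i : Fin m) (a b : Fin 3), a ≠ b →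
      (vsum (triangles m) w (i, a) = vsum (triangles m) w (i, b) ↔ opp w i a = opp w i b) := by
    intro i a b hab
    rw [vsum_triangles, vsum_triangles]
    fin_cases a <;> fin_cases b <;> simp_all <;> constructor <;> intro h <;> linarith
  constructor
  · intro h i a b hab
    by_contra hne
    exact h (i, a) (i, b) ⟨rfl, hne⟩ ((key i a b hne).2 hab)
  · rintro h ⟨i, a⟩ ⟨j, b⟩ ⟨hij, hab⟩ heq
    simp only at hij hab
    subst hij
    exact hab (h i ((key i a b hab).1 heq))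

theorem opp_mem {m : ℕ} {S : Set ℝ} {w : Sym2 (Fin m × Fin 3) → ℝ}
    (hw : IsWeighting (triangles m) S w) (i : Fin m) (a : Fin 3) : opp w i a ∈ S := by
  apply hw
  rw [SimpleGraph.mem_edgeSet]
  exact ⟨rfl, (by decide : ∀ a : Fin 3, a + 1 ≠ a + 2) a⟩

/-- Every edge of `triangles m` is opposite to a vertex of its triangle. -/
theorem edge_eq_opp {m : ℕ} (e : Sym2 (Fin m × Fin 3)) (he : e ∈ (triangles m).edgeSet) :
    ∃ i a, e = s((i, a + 1), (i, a + 2)) := by
  induction e using Sym2.ind with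
  | _ x y =>
    obtain ⟨x1, x2⟩ := x
    obtain ⟨y1, y2⟩ := y
    rw [SimpleGraph.mem_edgeSet] at he
    obtain ⟨h1, h2⟩ := he
    simp only at h1 h2
    subst h1
    have : ∃ a : Fin 3, s(x2, y2) = s(a + 1, a + 2) := by
      revert x2 y2
      decide
    obtain ⟨a, ha⟩ := this
    refine ⟨x1, a, ?_⟩
    rw [Sym2.eq_iff] at ha
    rw [Sym2.eq_iff]
    rcases ha with ⟨h, h'⟩ | ⟨h, h'⟩
    · left; simp [h, h']
    · right; simp [h, h']

theorem exists_inj {S : Set ℝ} (hS : S.ncard = 3) :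
    ∃ f : Fin 3 → ℝ, Function.Injective f ∧ ∀ a, f a ∈ S := by
  obtain ⟨x, y, z, hxy, hxz, hyz, rfl⟩ := Set.ncard_eq_three.1 hS
  refine ⟨![x, y, z], ?_, ?_⟩
  · intro a b h
    fin_cases a <;> fin_cases b <;> simp_all
  · intro a
    fin_cases a <;> simp

theorem surj_of_inj {S : Set ℝ} (hS : S.ncard = 3) (f : Fin 3 → ℝ) (hf : Function.Injective f)
    (hmem : ∀ a, f a ∈ S) : Set.range f = S := by
  have hfin : S.Finite := Set.finite_of_ncard_ne_zero (by omega)
  apply Set.eq_of_subset_of_ncard_le (by rintro _ ⟨a, rfl⟩; exact hmem a) _ hfin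
  rw [hS, ← Set.image_univ, Set.ncard_image_of_injective _ hf, Set.ncard_univ]
  simp

theorem unique_triangles {S : Set ℝ} (hS : S.ncard = 3) (m : ℕ) :
    UniquelyColourable (triangles m) S := by
  constructor
  · obtain ⟨f, hf, hmem⟩ := exists_inj hS
    -- weight of an edge: `f` of the third vertex, i.e. `-(x+y)` in `Fin 3`
    let w : Sym2 (Fin m × Fin 3) → ℝ :=
      Sym2.lift ⟨fun x y => f (-(x.2 + y.2)), fun x y => by
        change f (-(x.2 + y.2)) = f (-(y.2 + x.2))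
        rw [add_comm]⟩
    have hopp : ∀ i a, opp w i a = f a := by
      intro i a
      change f (-((a + 1) + (a + 2))) = f a
      congr 1
      revert a
      decide
    refine ⟨w, ?_, ?_⟩
    · intro e he
      obtain ⟨i, a, rfl⟩ := edge_eq_opp e he
      change opp w i a ∈ S
      rw [hopp]
      exact hmem a
    · rw [proper_iff]
      intro i a b hab
      rw [hopp, hopp] at hab
      exact hf hab
  · intro w w' hw hp hw' hp'
    rw [proper_iff] at hp hp'
    have hr : ∀ i, Set.range (opp w i) = S := fun i => surj_of_inj hS _ (hp i) (opp_mem hw i)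
    have hr' : ∀ i, Set.range (opp w' i) = S := fun i => surj_of_inj hS _ (hp' i) (opp_mem hw' i)
    have hex : ∀ i a, ∃ b, opp w' i b = opp w i a := by
      intro i a
      have : opp w i a ∈ Set.range (opp w' i) := by
        rw [hr' i, ← hr i]
        exact ⟨a, rfl⟩
      exact this
    choose g hg using hex
    have hginj : ∀ i, Function.Injective (g i) := by
      intro i a b hab
      apply hp i
      rw [← hg i a, ← hg i b, hab]
    let e : ∀ i, Fin 3 ≃ Fin 3 := fun i => Equiv.ofBijective (g i)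
      (Finite.injective_iff_bijective.1 (hginj i))
    let φ : triangles m ≃g triangles m :=
      { toEquiv :=
          { toFun := fun x => (x.1, e x.1 x.2)
            invFun := fun x => (x.1, (e x.1).symm x.2)
            left_inv := fun x => by simp
            right_inv := fun x => by simp }
        map_rel_iff' := by
          rintro ⟨i, a⟩ ⟨j, b⟩
          change (i = j ∧ e i a ≠ e j b) ↔ (i = j ∧ a ≠ b)
          constructor
          · rintro ⟨rfl, h⟩
            exact ⟨rfl, fun h' => h (by rw [h'])⟩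
          · rintro ⟨rfl, h⟩
            exact ⟨rfl, fun h' => h ((e i).injective h')⟩ }
    refine ⟨φ, ?_⟩
    intro ed hed
    obtain ⟨i, a, rfl⟩ := edge_eq_opp ed hed
    change w' s((i, g i (a + 1)), (i, g i (a + 2))) = opp w i a
    rw [← hg i a]
    unfold opp
    congr 1
    have h3 : ∀ x y z : Fin 3, x ≠ y → y ≠ z → x ≠ z →
        (x = z + 1 ∧ y = z + 2) ∨ (x = z + 2 ∧ y = z + 1) := by decide
    have hne1 : g i (a + 1) ≠ g i (a + 2) := fun h =>
      (by decide : ∀ a : Fin 3, a + 1 ≠ a + 2) a (hginj i h)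
    have hne2 : g i (a + 2) ≠ g i a := fun h =>
      (by decide : ∀ a : Fin 3, a + 2 ≠ a) a (hginj i h)
    have hne3 : g i (a + 1) ≠ g i a := fun h =>
      (by decide : ∀ a : Fin 3, a + 1 ≠ a) a (hginj i h)
    rw [Sym2.eq_iff]
    rcases h3 _ _ _ hne1 hne2 hne3 with ⟨h, h'⟩ | ⟨h, h'⟩
    · left; rw [h, h']; exact ⟨rfl, rfl⟩
    · right; rw [h, h']; exact ⟨rfl, rfl⟩

/-- **Main result.**  For every set `S` of exactly three reals (in particular `S = {1,2,3}`) and
every `m ≥ 1`, the disjoint union of `m` triangles has an edge and is uniquely `S`-weight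
colourable; for `m = 1` this graph is the triangle. -/
theorem result :
    (∀ S : Set ℝ, S.ncard = 3 → ∀ m : ℕ, 1 ≤ m →
      (triangles m).edgeSet.Nonempty ∧ UniquelyColourable (triangles m) S) ∧
    ({1, 2, 3} : Set ℝ).ncard = 3 ∧
    Nonempty (triangles 1 ≃g (⊤ : SimpleGraph (Fin 3))) := by
  refine ⟨fun S hS m hm => ⟨⟨s((⟨0, hm⟩, 0), (⟨0, hm⟩, 1)), ?_⟩, unique_triangles hS m⟩, ?_, ?_⟩
  · rw [SimpleGraph.mem_edgeSet]
    exact ⟨rfl, (by decide : (0 : Fin 3) ≠ 1)⟩
  · exact Set.ncard_eq_three.2 ⟨1, 2, 3, by norm_num, by norm_num, by norm_num, rfl⟩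
  · refine ⟨{
      toEquiv :=
        { toFun := fun x => x.2
          invFun := fun x => (0, x)
          left_inv := ?_
          right_inv := fun _ => rfl }
      map_rel_iff' := ?_ }⟩
    · rintro ⟨i, a⟩
      simp [Subsingleton.elim i 0]
    · rintro ⟨i, a⟩ ⟨j, b⟩
      change a ≠ b ↔ (i = j ∧ a ≠ b)
      simp [Subsingleton.elim i j]

end Pool.Agent.Results.MP_9e9a14_co.TriangleUnique
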